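import Mathlib

/-!
Finite rank perturbations of quasinilpotent operators: the characteristic determinant.
-/

set_option autoImplicit false

namespace Pool.Agent.U667.QN

open scoped Topology

variable {X : Type} [NormedAddCommGroup X] [NormedSpace ℂ X] [CompleteSpace X]

/-- spectrum contained in `{0}` -/
def QNil (T : X →L[ℂ] X) : Prop := spectrum ℂ T ⊆ {0}

theorem isUnit_of_qnil {T : X →L[ℂ] X} (h : QNil T) (w : ℂ) :
    IsUnit (1 - w • T) := by
  by_cases hw : w = 0
  · simp [hw]
  · have h1 : w⁻¹ ∉ spectrum ℂ T := fun hm => (inv_ne_zero hw) (h hm)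
    rw [spectrum.notMem_iff] at h1
    have h2 : (1 : X →L[ℂ] X) - w • T = w • (algebraMap ℂ (X →L[ℂ] X) w⁻¹ - T) := by
      rw [smul_sub, Algebra.algebraMap_eq_smul_one, smul_smul, mul_inv_cancel₀ hw, one_smul]
    rw [h2]
    exact (isUnit_smul_iff (Units.mk0 w hw) _).2 h1

theorem qnil_of_isUnit {T : X →L[ℂ] X} (h : ∀ w : ℂ, IsUnit (1 - w • T)) : QNil T := by
  intro l hl
  by_contra hne
  have hne' : l ≠ 0 := hne
  have h1 := h l⁻¹
  apply hl
  have h2 : algebraMap ℂ (X →L[ℂ] X) l - T = l • (1 - l⁻¹ • T) := by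
    rw [smul_sub, Algebra.algebraMap_eq_smul_one, smul_smul, mul_inv_cancel₀ hne', one_smul]
  show IsUnit (algebraMap ℂ (X →L[ℂ] X) l - T)
  rw [h2]
  exact (isUnit_smul_iff (Units.mk0 l hne') _).2 h1

/-- the resolvent as a function of the inverse of the spectral parameter -/
noncomputable def res (T : X →L[ℂ] X) (w : ℂ) : X →L[ℂ] X := Ring.inverse (1 - w • T)

theorem res_mul {T : X →L[ℂ] X} {w : ℂ} (h : IsUnit (1 - w • T)) (x : X) :
    res T w (x - w • T x) = x := by
  have h1 := Ring.inverse_mul_cancel _ h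
  have h2 := congrArg (fun A : X →L[ℂ] X => A x) h1
  simpa [res] using h2

theorem mul_res {T : X →L[ℂ] X} {w : ℂ} (h : IsUnit (1 - w • T)) (x : X) :
    res T w x - w • T (res T w x) = x := by
  have h1 := Ring.mul_inverse_cancel _ h
  have h2 := congrArg (fun A : X →L[ℂ] X => A x) h1
  simpa [res] using h2

theorem res_zero (T : X →L[ℂ] X) : res T 0 = 1 := by
  simp [res]

theorem differentiable_res {T : X →L[ℂ] X} (h : QNil T) : Differentiable ℂ (res T) := by
  have h1 : Differentiable ℂ (fun w : ℂ => (1 : X →L[ℂ] X) - w • T) :=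
    (differentiable_const _).sub (differentiable_id.smul_const T)
  exact h1.inverse fun w => isUnit_of_qnil h w

variable {r : ℕ}

/-- the finite rank operator `x ↦ ∑ φ j x • u j` -/
noncomputable def fin (u : Fin r → X) (φ : Fin r → (X →L[ℂ] ℂ)) : X →L[ℂ] X :=
  ∑ j, (φ j).smulRight (u j)

theorem fin_apply (u : Fin r → X) (φ : Fin r → (X →L[ℂ] ℂ)) (x : X) :
    fin u φ x = ∑ j, φ j x • u j := by
  simp [fin, ContinuousLinearMap.sum_apply]

/-- the matrix `w φ j (res T w (u k))` -/
noncomputable def mat (T : X →L[ℂ] X) (u : Fin r → X) (φ : Fin r → (X →L[ℂ] ℂ)) (w : ℂ) :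
    Matrix (Fin r) (Fin r) ℂ := fun j k => w * φ j (res T w (u k))

/-- if the determinant vanishes there is an eigenvector -/
theorem exists_eigen {T : X →L[ℂ] X} (u : Fin r → X) (φ : Fin r → (X →L[ℂ] ℂ)) {w : ℂ}
    (hw : IsUnit (1 - w • T)) (hdet : (1 - mat T u φ w).det = 0) :
    ∃ x : X, x ≠ 0 ∧ x = w • (T + fin u φ) x := by
  obtain ⟨v, hv, hv2⟩ := Matrix.exists_mulVec_eq_zero_iff.2 hdet
  have hv3 : ∀ j, v j = w * φ j (res T w (∑ k, v k • u k)) := by
    intro j
    have h1 := congrFun hv2 j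
    rw [Matrix.sub_mulVec, Matrix.one_mulVec, Pi.sub_apply, Pi.zero_apply, sub_eq_zero] at h1
    rw [h1, map_sum, map_sum, Finset.mul_sum]
    simp only [Matrix.mulVec, dotProduct, mat, map_smul, smul_eq_mul]
    refine Finset.sum_congr rfl fun k _ => ?_
    ring
  refine ⟨res T w (∑ k, v k • u k), ?_, ?_⟩
  · intro h0
    apply hv
    funext j
    rw [hv3 j, h0, map_zero, mul_zero, Pi.zero_apply]
  · have h1 := mul_res hw (∑ k, v k • u k)
    rw [ContinuousLinearMap.add_apply, smul_add, fin_apply, Finset.smul_sum]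
    have h2 : ∑ j, w • (φ j (res T w (∑ k, v k • u k)) • u j) = ∑ k, v k • u k := by
      refine Finset.sum_congr rfl fun j _ => ?_
      rw [smul_smul, ← hv3 j]
    rw [h2]
    rw [sub_eq_iff_eq_add] at h1
    rw [add_comm]
    exact h1

/-- if the determinant does not vanish the operator is invertible -/
theorem isUnit_of_det {T : X →L[ℂ] X} (u : Fin r → X) (φ : Fin r → (X →L[ℂ] ℂ)) {w : ℂ}
    (hw : IsUnit (1 - w • T)) (hdet : (1 - mat T u φ w).det ≠ 0) :
    IsUnit (1 - w • (T + fin u φ)) := by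
  rw [ContinuousLinearMap.isUnit_iff_bijective]
  have key : ∀ x : X, ((1 : X →L[ℂ] X) - w • (T + fin u φ)) x =
      (x - w • T x) - ∑ j, (w * φ j x) • u j := by
    intro x
    simp only [ContinuousLinearMap.sub_apply, ContinuousLinearMap.smul_apply,
      ContinuousLinearMap.add_apply, ContinuousLinearMap.one_apply, fin_apply, smul_add,
      Finset.smul_sum, smul_smul]
    abel
  constructor
  · rw [injective_iff_map_eq_zero]
    intro x hx
    rw [key, sub_eq_zero] at hx
    have hx2 : x = res T w (∑ j, (w * φ j x) • u j) := by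
      rw [← hx, res_mul hw]
    have hv : (1 - mat T u φ w).mulVec (fun j => φ j x) = 0 := by
      funext j
      rw [Matrix.sub_mulVec, Matrix.one_mulVec, Pi.sub_apply, Pi.zero_apply, sub_eq_zero]
      conv_lhs => rw [hx2]
      rw [map_sum, map_sum]
      simp only [Matrix.mulVec, dotProduct, mat, map_smul, smul_eq_mul]
      refine Finset.sum_congr rfl fun k _ => ?_
      ring
    have hv0 : (fun j => φ j x) = 0 := Matrix.eq_zero_of_mulVec_eq_zero hdet hv
    rw [hx2]
    have : ∀ j, φ j x = 0 := fun j => congrFun hv0 j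
    simp [this]
  · intro y
    have hu : IsUnit (1 - mat T u φ w).det := hdet.isUnit
    let c : Fin r → ℂ := ((1 - mat T u φ w)⁻¹).mulVec (fun j => φ j (res T w y))
    have hc : (1 - mat T u φ w).mulVec c = fun j => φ j (res T w y) := by
      simp only [c]
      rw [Matrix.mulVec_mulVec, Matrix.mul_nonsing_inv _ hu, Matrix.one_mulVec]
    let x : X := res T w (y + ∑ k, (w * c k) • u k)
    have hx : ∀ j, φ j x = c j := by
      intro j
      have h1 := congrFun hc j
      rw [Matrix.sub_mulVec, Matrix.one_mulVec, Pi.sub_apply, sub_eq_iff_eq_add] at h1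
      rw [h1]
      simp only [x]
      rw [map_add, map_add, map_sum, map_sum]
      congr 1
      simp only [Matrix.mulVec, dotProduct, mat, map_smul, smul_eq_mul]
      refine Finset.sum_congr rfl fun k _ => ?_
      ring
    refine ⟨x, ?_⟩
    rw [key]
    have h2 : x - w • T x = y + ∑ k, (w * c k) • u k := mul_res hw _
    rw [h2]
    simp only [hx]
    abel

/-- quasinilpotency in terms of the determinant -/
theorem qnil_iff {T : X →L[ℂ] X} (hT : QNil T) (u : Fin r → X) (φ : Fin r → (X →L[ℂ] ℂ)) :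
    QNil (T + fin u φ) ↔ ∀ w : ℂ, (1 - mat T u φ w).det ≠ 0 := by
  constructor
  · intro h w hdet
    obtain ⟨x, hx, hx2⟩ := exists_eigen u φ (isUnit_of_qnil hT w) hdet
    have h1 := isUnit_of_qnil h w
    apply hx
    have h2 := res_mul h1 x
    rw [← hx2, sub_self, map_zero] at h2
    exact h2.symm
  · intro h
    exact qnil_of_isUnit fun w => isUnit_of_det u φ (isUnit_of_qnil hT w) (h w)

end Pool.Agent.U667.QN
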