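import Pool.Agent.U667.QN.Locus

/-!
Lines of finite rank perturbations: at most `2 r` quasinilpotent operators, or all of them.
-/

set_option autoImplicit false

namespace Pool.Agent.U667.QN

variable {X : Type} [NormedAddCommGroup X] [NormedSpace ℂ X] [CompleteSpace X] {r m : ℕ}

/-- the characteristic determinant as a polynomial in one variable -/
noncomputable def lpol (T : X →L[ℂ] X) (u : Fin r → X) (φ : Fin r → (X →L[ℂ] ℂ)) (w : ℂ) :
    Polynomial ℂ :=
  Matrix.det (Matrix.of fun j k : Fin r => Polynomial.C (if j = k then (1 : ℂ) else 0) -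
    Polynomial.X * Polynomial.C (w * φ j (res T w (u k))))

theorem eval_lpol (T : X →L[ℂ] X) (u : Fin r → X) (φ : Fin r → (X →L[ℂ] ℂ)) (w z : ℂ) :
    (lpol T u φ w).eval z = (1 - mat T u (fun j => z • φ j) w).det := by
  have h0 : (lpol T u φ w).eval z = (Polynomial.evalRingHom z) (lpol T u φ w) := rfl
  rw [h0, lpol, RingHom.map_det]
  congr 1
  funext j k
  simp only [RingHom.mapMatrix_apply, Matrix.map_apply, Matrix.of_apply, map_sub, map_mul,
    Polynomial.coe_evalRingHom, Polynomial.eval_C, Polynomial.eval_X,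
    Matrix.sub_apply, Matrix.one_apply, mat, Polynomial.eval_mul, Polynomial.eval_sub]
  congr 1
  rw [ContinuousLinearMap.smul_apply, smul_eq_mul]
  ring

theorem natDegree_lpol (T : X →L[ℂ] X) (u : Fin r → X) (φ : Fin r → (X →L[ℂ] ℂ)) (w : ℂ) :
    (lpol T u φ w).natDegree ≤ r := by
  rw [lpol, Matrix.det_apply']
  refine Polynomial.natDegree_sum_le_of_forall_le _ _ fun σ _ => ?_
  refine Polynomial.natDegree_mul_le.trans ?_
  have h0 : ((Equiv.Perm.sign σ : ℤ) : Polynomial ℂ).natDegree = 0 :=
    Polynomial.natDegree_intCast _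
  rw [h0, zero_add]
  refine (Polynomial.natDegree_prod_le _ _).trans ?_
  refine (Finset.sum_le_card_nsmul _ _ 1 fun i _ => ?_).trans (by simp)
  simp only [Function.comp_apply, Matrix.of_apply]
  refine (Polynomial.natDegree_sub_le _ _).trans (max_le (by rw [Polynomial.natDegree_C]; exact Nat.zero_le _) ?_)
  refine Polynomial.natDegree_mul_le.trans ?_
  rw [Polynomial.natDegree_C, add_zero]
  exact Polynomial.natDegree_X_le

/-- a nonconstant polynomial takes a value at most `natDegree` times -/
theorem card_fibre {p : Polynomial ℂ} {r : ℕ} (hp : p.natDegree ≤ r) {a b : ℂ}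
    (hab : p.eval a ≠ p.eval b) (s : Finset ℂ) (c : ℂ) (hs : ∀ z ∈ s, p.eval z = c) :
    s.card ≤ r := by
  have hne : p - Polynomial.C c ≠ 0 := by
    intro h
    apply hab
    have h1 : p = Polynomial.C c := sub_eq_zero.1 h
    rw [h1, Polynomial.eval_C, Polynomial.eval_C]
  by_contra hcon
  push Not at hcon
  have h2 : (p - Polynomial.C c).natDegree ≤ r :=
    (Polynomial.natDegree_sub_le _ _).trans (max_le hp (by rw [Polynomial.natDegree_C]; exact Nat.zero_le _))
  have h3 : s.val ≤ (p - Polynomial.C c).roots := by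
    rw [Multiset.le_iff_subset s.nodup]
    intro z hz
    rw [Polynomial.mem_roots hne, Polynomial.IsRoot, Polynomial.eval_sub, Polynomial.eval_C,
      hs z hz, sub_self]
  have h4 := Multiset.card_le_card h3
  have h5 := (p - Polynomial.C c).card_roots'
  have h6 : s.card = Multiset.card s.val := rfl
  omega

theorem smul_fin (u : Fin r → X) (φ : Fin r → (X →L[ℂ] ℂ)) (z : ℂ) :
    z • fin u φ = fin u (fun j => z • φ j) := by
  ext x
  simp only [ContinuousLinearMap.smul_apply, fin_apply, Finset.smul_sum, smul_smul, smul_eq_mul]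

theorem line_of_qnil {T : X →L[ℂ] X} (hT : QNil T) (u : Fin r → X) (φ : Fin r → (X →L[ℂ] ℂ))
    (hne : ∃ z : ℂ, ¬ QNil (T + z • fin u φ)) (Z : Finset ℂ)
    (hZ : ∀ z ∈ Z, QNil (T + z • fin u φ)) : Z.card ≤ 2 * r := by
  classical
  have hiff : ∀ z : ℂ, QNil (T + z • fin u φ) ↔ ∀ w, (lpol T u φ w).eval z ≠ 0 := by
    intro z
    rw [smul_fin, qnil_iff hT]
    simp only [eval_lpol]
  obtain ⟨z1, hz1⟩ := hne
  rw [hiff] at hz1
  push Not at hz1
  obtain ⟨w1, hw1⟩ := hz1
  have hone : (lpol T u φ w1).eval 0 = 1 := by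
    rw [eval_lpol]
    have : mat T u (fun j => (0 : ℂ) • φ j) w1 = 0 := by
      funext j k
      simp [mat]
    rw [this]
    simp
  have hdiff : (lpol T u φ w1).eval 0 ≠ (lpol T u φ w1).eval z1 := by
    rw [hone, hw1]
    exact one_ne_zero
  by_contra hcon
  push Not at hcon
  have hpos : 0 < Z.card := by omega
  obtain ⟨ζ0, hζ0⟩ := Finset.card_pos.1 hpos
  let g : ℂ → ℂ → ℂ := fun z w => (lpol T u φ w).eval z
  set A := Z.filter (fun z => g z = g ζ0) with hA
  set B := Z.filter (fun z => ¬ g z = g ζ0) with hB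
  have hAB : A.card + B.card = Z.card := Finset.card_filter_add_card_filter_not _
  have hAr : A.card ≤ r := by
    refine card_fibre (natDegree_lpol T u φ w1) hdiff A (g ζ0 w1) ?_
    intro z hz
    rw [hA, Finset.mem_filter] at hz
    exact congrFun hz.2 w1
  have hBr : r < B.card := by omega
  obtain ⟨s, hs1, hs2⟩ := separate (κ := Z) (fun j => g j)
    (fun j => by
      simp only [g, eval_lpol]
      exact differentiable_det hT _ _)
    (fun j w => (hiff j).1 (hZ j j.2) w)
    (fun j => by
      simp only [g, eval_lpol, mat_zero]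
      simp) ⟨ζ0, hζ0⟩
  let p : Polynomial ℂ := s.sum fun w c => Polynomial.C c * lpol T u φ w
  have hpe : ∀ z, p.eval z = s.sum fun w c => c * g z w := by
    intro z
    simp only [p, Finsupp.sum, Polynomial.eval_finsetSum, Polynomial.eval_mul, Polynomial.eval_C, g]
  have hpd : p.natDegree ≤ r := by
    refine Polynomial.natDegree_sum_le_of_forall_le _ _ fun w _ => ?_
    exact (Polynomial.natDegree_C_mul_le _ _).trans (natDegree_lpol T u φ w)
  have hp0 : ∀ z ∈ B, p.eval z = 0 := by
    intro z hz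
    rw [hB, Finset.mem_filter] at hz
    rw [hpe]
    exact hs2 ⟨z, hz.1⟩ hz.2
  have hp1 : p.eval ζ0 = 1 := by
    rw [hpe]
    exact hs1
  have hBne : B.Nonempty := by
    rw [← Finset.card_pos]
    omega
  obtain ⟨b, hb⟩ := hBne
  have := card_fibre hpd (a := ζ0) (b := b) (by rw [hp1, hp0 b hb]; exact one_ne_zero) B 0 hp0
  omega

end Pool.Agent.U667.QN
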