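import Pool.Agent.U667.QN.Basic
import Pool.Agent.H159R3.War.LogCurve

/-!
The quasinilpotent locus of a family of finite rank perturbations is algebraic.
-/

set_option autoImplicit false

namespace Pool.Agent.U667.QN

open MvPolynomial

variable {X : Type} [NormedAddCommGroup X] [NormedSpace ℂ X] [CompleteSpace X] {r m : ℕ}

theorem mat_zero (T : X →L[ℂ] X) (u : Fin r → X) (φ : Fin r → (X →L[ℂ] ℂ)) : mat T u φ 0 = 0 := by
  funext j k
  simp [mat]

theorem differentiable_det {T : X →L[ℂ] X} (hT : QNil T) (u : Fin r → X)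
    (φ : Fin r → (X →L[ℂ] ℂ)) : Differentiable ℂ (fun w => (1 - mat T u φ w).det) := by
  have h1 : ∀ j k, Differentiable ℂ (fun w => (1 - mat T u φ w) j k) := by
    intro j k
    have h2 : Differentiable ℂ (fun w : ℂ => w * φ j (res T w (u k))) := by
      refine differentiable_id.mul ?_
      exact (φ j).differentiable.comp ((differentiable_res hT).clm_apply (differentiable_const _))
    have h3 : (fun w => (1 - mat T u φ w) j k) =
        fun w => (1 : Matrix (Fin r) (Fin r) ℂ) j k - w * φ j (res T w (u k)) := by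
      funext w
      rfl
    rw [h3]
    exact (differentiable_const _).sub h2
  simp only [Matrix.det_apply']
  refine Differentiable.fun_sum fun σ _ => ?_
  refine (differentiable_const _).mul ?_
  exact Differentiable.fun_finsetProd fun i _ => h1 _ _

/-- the polynomial whose value at `z` is the characteristic determinant -/
noncomputable def pol (T : X →L[ℂ] X) (u : Fin r → X) (φ : Fin m → Fin r → (X →L[ℂ] ℂ))
    (z0 : Fin m → ℂ) (w : ℂ) : MvPolynomial (Fin m) ℂ :=
  Matrix.det (Matrix.of fun j k : Fin r => C (if j = k then (1 : ℂ) else 0) -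
    ∑ i, (MvPolynomial.X i - C (z0 i)) * C (w * φ i j (res T w (u k))))

theorem eval_pol (T : X →L[ℂ] X) (u : Fin r → X) (φ : Fin m → Fin r → (X →L[ℂ] ℂ))
    (z0 z : Fin m → ℂ) (w : ℂ) :
    eval z (pol T u φ z0 w) = (1 - mat T u (fun j => ∑ i, (z i - z0 i) • φ i j) w).det := by
  rw [pol, RingHom.map_det]
  congr 1
  funext j k
  simp only [RingHom.mapMatrix_apply, Matrix.map_apply, Matrix.of_apply, map_sub, map_sum, map_mul, eval_C, eval_X,
    Matrix.sub_apply, Matrix.one_apply, mat]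
  congr 1
  rw [ContinuousLinearMap.sum_apply, Finset.mul_sum]
  refine Finset.sum_congr rfl fun i _ => ?_
  rw [ContinuousLinearMap.smul_apply, smul_eq_mul]
  ring

theorem totalDegree_pol (T : X →L[ℂ] X) (u : Fin r → X) (φ : Fin m → Fin r → (X →L[ℂ] ℂ))
    (z0 : Fin m → ℂ) (w : ℂ) : (pol T u φ z0 w).totalDegree ≤ r := by
  rw [pol, Matrix.det_apply']
  refine totalDegree_finsetSum_le fun σ _ => ?_
  refine (totalDegree_mul _ _).trans ?_
  have h0 : ((Equiv.Perm.sign σ : ℤ) : MvPolynomial (Fin m) ℂ).totalDegree = 0 := by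
    have : ((Equiv.Perm.sign σ : ℤ) : MvPolynomial (Fin m) ℂ) =
        C ((Equiv.Perm.sign σ : ℤ) : ℂ) := by simp
    rw [this, totalDegree_C]
  rw [h0, zero_add]
  refine (totalDegree_finsetProd _ _).trans ?_
  refine (Finset.sum_le_card_nsmul _ _ 1 fun i _ => ?_).trans (by simp)
  refine (totalDegree_sub _ _).trans (max_le (by rw [totalDegree_C]; exact Nat.zero_le _) ?_)
  refine totalDegree_finsetSum_le fun i _ => ?_
  refine (totalDegree_mul _ _).trans ?_
  rw [totalDegree_C, add_zero]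
  refine (totalDegree_sub _ _).trans (max_le (by rw [totalDegree_X]) ?_)
  rw [totalDegree_C]
  exact Nat.zero_le _

/-- distinct normalised zero-free entire functions can be separated -/
theorem separate {κ : Type} [Fintype κ] (g : κ → ℂ → ℂ) (hg : ∀ j, Differentiable ℂ (g j))
    (hg0 : ∀ j w, g j w ≠ 0) (hg1 : ∀ j, g j 0 = 1) (j0 : κ) :
    ∃ s : ℂ →₀ ℂ, (s.sum fun w c => c * g j0 w) = 1 ∧
      ∀ j, g j ≠ g j0 → (s.sum fun w c => c * g j w) = 0 := by
  obtain ⟨s, hs⟩ := Pool.Agent.H159R3.War.class_span g hg hg0 j0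
  refine ⟨s, ?_, fun j hj => ?_⟩
  · rw [(hs j0).1 ⟨1, fun z => by rw [one_mul]⟩, hg1]
  · refine (hs j).2 ?_
    rintro ⟨a, ha⟩
    apply hj
    have h1 := ha 0
    rw [hg1, hg1, mul_one] at h1
    funext z
    rw [ha z, ← h1, one_mul]

/-- distinct normalised zero-free entire functions are linearly independent -/
theorem linInd (U : Set (ℂ → ℂ)) (hg : ∀ g ∈ U, Differentiable ℂ g)
    (hg0 : ∀ g ∈ U, ∀ w, g w ≠ 0) (hg1 : ∀ g ∈ U, g 0 = 1) :
    LinearIndependent ℂ (fun g : U => (g : ℂ → ℂ)) := by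
  rw [linearIndependent_iff']
  intro s c hc g0 hg0s
  obtain ⟨t, ht1, ht2⟩ := separate (κ := s) (fun j => ((j : U) : ℂ → ℂ))
    (fun j => hg _ j.1.2) (fun j => hg0 _ j.1.2) (fun j => hg1 _ j.1.2) ⟨g0, hg0s⟩
  have h1 : (t.sum fun w a => a * (∑ i ∈ s, c i * (i : ℂ → ℂ) w)) = 0 := by
    have h2 : ∀ w, ∑ i ∈ s, c i * (i : ℂ → ℂ) w = 0 := by
      intro w
      have := congrFun hc w
      simpa [Finset.sum_apply] using this
    simp [h2, Finsupp.sum]
  have h3 : (t.sum fun w a => a * (∑ i ∈ s, c i * (i : ℂ → ℂ) w)) =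
      ∑ i ∈ s, c i * (t.sum fun w a => a * (i : ℂ → ℂ) w) := by
    simp only [Finsupp.sum, Finset.mul_sum]
    rw [Finset.sum_comm]
    refine Finset.sum_congr rfl fun i _ => Finset.sum_congr rfl fun w _ => ?_
    ring
  rw [h3, Finset.sum_eq_single g0] at h1
  · rw [ht1, mul_one] at h1
    exact h1
  · intro i hi hne
    rw [ht2 ⟨i, hi⟩ (fun h => hne (Subtype.ext h)), mul_zero]
  · intro h
    exact absurd hg0s h

theorem sum_fin (u : Fin r → X) (φ : Fin m → Fin r → (X →L[ℂ] ℂ)) (z : Fin m → ℂ) :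
    ∑ i, z i • fin u (φ i) = fin u (fun j => ∑ i, z i • φ i j) := by
  ext x
  simp only [ContinuousLinearMap.sum_apply, ContinuousLinearMap.smul_apply, fin_apply,
    Finset.smul_sum, Finset.sum_smul, smul_smul, smul_eq_mul]
  rw [Finset.sum_comm]

/-- the functions attached to the points of the locus -/
def units (T : X →L[ℂ] X) (u : Fin r → X) (φ : Fin m → Fin r → (X →L[ℂ] ℂ)) (z0 : Fin m → ℂ) :
    Set (ℂ → ℂ) :=
  {g | (∀ w, g w ≠ 0) ∧ ∃ z : Fin m → ℂ, g = fun w => eval z (pol T u φ z0 w)}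

theorem units_finite {T : X →L[ℂ] X} (hT : QNil T) (u : Fin r → X)
    (φ : Fin m → Fin r → (X →L[ℂ] ℂ)) (z0 : Fin m → ℂ) : (units T u φ z0).Finite := by
  let V : Submodule ℂ (MvPolynomial (Fin m) ℂ) := restrictTotalDegree (Fin m) ℂ r
  let P : ℂ → V := fun w => ⟨pol T u φ z0 w, (mem_restrictTotalDegree _ _ _).2
    (totalDegree_pol T u φ z0 w)⟩
  let L : (Module.Dual ℂ V) →ₗ[ℂ] (ℂ → ℂ) :=
    { toFun := fun l w => l (P w)
      map_add' := fun a b => rfl
      map_smul' := fun c a => rfl }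
  have hsub : ∀ g ∈ units T u φ z0, g ∈ LinearMap.range L := by
    rintro g ⟨-, z, rfl⟩
    let ev : V →ₗ[ℂ] ℂ := (MvPolynomial.aeval z).toLinearMap.comp V.subtype
    refine ⟨ev, ?_⟩
    funext w
    show aeval z (pol T u φ z0 w) = _
    rw [aeval_eq_eval]
  have hli : LinearIndependent ℂ (fun g : units T u φ z0 => (g : ℂ → ℂ)) := by
    refine linInd _ ?_ ?_ ?_
    · rintro g ⟨-, z, rfl⟩
      simp only [eval_pol]
      exact differentiable_det hT _ _
    · rintro g ⟨hg, -⟩
      exact hg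
    · rintro g ⟨-, z, rfl⟩
      simp only [eval_pol, mat_zero]
      simp
  have hli2 : LinearIndependent ℂ
      (fun g : units T u φ z0 => (⟨(g : ℂ → ℂ), hsub g g.2⟩ : LinearMap.range L)) := by
    apply LinearIndependent.of_comp (LinearMap.range L).subtype
    exact hli
  have := hli2.finite
  exact Set.toFinite _

theorem algebraic_of_qnil {T : X →L[ℂ] X} (z0 : Fin m → ℂ) (u : Fin r → X)
    (φ : Fin m → Fin r → (X →L[ℂ] ℂ)) (hT : QNil (T + fin u (fun j => ∑ i, z0 i • φ i j))) :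
    ∃ S : Finset (MvPolynomial (Fin m) ℂ), ∀ z : Fin m → ℂ,
      QNil (T + fin u (fun j => ∑ i, z i • φ i j)) ↔ ∀ p ∈ S, eval z p = 0 := by
  classical
  set T' := T + fin u (fun j => ∑ i, z0 i • φ i j) with hT'
  have hiff : ∀ z : Fin m → ℂ, QNil (T + fin u (fun j => ∑ i, z i • φ i j)) ↔
      ∀ w, eval z (pol T' u φ z0 w) ≠ 0 := by
    intro z
    have h1 : T + fin u (fun j => ∑ i, z i • φ i j) =
        T' + fin u (fun j => ∑ i, (z i - z0 i) • φ i j) := by
      rw [hT', ← sum_fin, ← sum_fin, ← sum_fin, add_assoc, ← Finset.sum_add_distrib]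
      congr 1
      refine Finset.sum_congr rfl fun i _ => ?_
      rw [← add_smul, add_sub_cancel]
    rw [h1, qnil_iff hT]
    simp only [eval_pol]
  have hfin := units_finite hT u φ z0
  set U := hfin.toFinset with hU
  let Q : ((ℂ → ℂ) → ℂ) → MvPolynomial (Fin m) ℂ := fun ω =>
    ∏ g ∈ U, (pol T' u φ z0 (ω g) - C (g (ω g)))
  let I : Ideal (MvPolynomial (Fin m) ℂ) := Ideal.span (Set.range Q)
  obtain ⟨S, hS⟩ := (IsNoetherian.noetherian I : I.FG)
  refine ⟨S, fun z => ?_⟩
  have hI : (∀ p ∈ S, eval z p = 0) ↔ ∀ ω, eval z (Q ω) = 0 := by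
    have hSI : (Ideal.span (S : Set (MvPolynomial (Fin m) ℂ))) = I := hS
    constructor
    · intro h ω
      have h1 : I ≤ RingHom.ker (eval z) := by
        rw [← hSI, Ideal.span_le]
        intro p hp
        exact h p hp
      exact h1 (Ideal.subset_span ⟨ω, rfl⟩)
    · intro h p hp
      have h1 : I ≤ RingHom.ker (eval z) := by
        rw [Ideal.span_le]
        rintro _ ⟨ω, rfl⟩
        exact h ω
      apply h1
      rw [← hSI]
      exact Ideal.subset_span hp
  rw [hI, hiff]
  constructor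
  · intro h ω
    simp only [Q]
    rw [map_prod]
    refine Finset.prod_eq_zero (i := fun w => eval z (pol T' u φ z0 w)) ?_ ?_
    · rw [hU, Set.Finite.mem_toFinset]
      exact ⟨h, z, rfl⟩
    · simp
  · intro h
    by_contra hcon
    have h1 : ∀ g ∈ U, ∃ w, eval z (pol T' u φ z0 w) ≠ g w := by
      intro g hg
      rw [hU, Set.Finite.mem_toFinset] at hg
      by_contra h2
      push Not at h2
      apply hcon
      intro w
      rw [h2 w]
      exact hg.1 w
    let ω : (ℂ → ℂ) → ℂ := fun g => if hg : g ∈ U then (h1 g hg).choose else 0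
    have h2 := h ω
    simp only [Q] at h2
    rw [map_prod, Finset.prod_eq_zero_iff] at h2
    obtain ⟨g, hg, h3⟩ := h2
    rw [map_sub, eval_C, sub_eq_zero] at h3
    have h4 : ω g = (h1 g hg).choose := dif_pos hg
    rw [h4] at h3
    exact (h1 g hg).choose_spec h3

end Pool.Agent.U667.QN
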