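import Pool.Agent.U667.QN.Line

/-!
Finite rank perturbations of quasinilpotent operators: main statements.
-/

set_option autoImplicit false

namespace Pool.Agent.U667.QN

open MvPolynomial Filter Topology

variable {X : Type} [NormedAddCommGroup X] [NormedSpace ℂ X] [CompleteSpace X] {r m : ℕ}

/-- factorisation of operators with range in a finite dimensional space -/
theorem factor (F : Fin m → (X →L[ℂ] X)) (U : Submodule ℂ X) [FiniteDimensional ℂ U]
    (hU : ∀ i x, F i x ∈ U) :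
    ∃ (u : Fin (Module.finrank ℂ U) → X)
      (φ : Fin m → Fin (Module.finrank ℂ U) → (X →L[ℂ] ℂ)), ∀ i, F i = fin u (φ i) := by
  let b := Module.finBasis ℂ U
  refine ⟨fun j => (b j : X), fun i j =>
    (LinearMap.toContinuousLinearMap (b.coord j)).comp ((F i).codRestrict U (hU i)), fun i => ?_⟩
  ext x
  rw [fin_apply]
  have h1 := b.sum_repr ((F i).codRestrict U (hU i) x)
  have h2 := congrArg (fun y : U => (y : X)) h1
  simp only [Submodule.coe_sum, Submodule.coe_smul] at h2
  rw [ContinuousLinearMap.coe_codRestrict_apply] at h2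
  rw [← h2]
  rfl

/-- finite rank -/
def FR (F : X →L[ℂ] X) : Prop := FiniteDimensional ℂ (LinearMap.range (F : X →ₗ[ℂ] X))

theorem factor_family (F : Fin m → (X →L[ℂ] X)) (hF : ∀ i, FR (F i)) :
    ∃ (r : ℕ) (u : Fin r → X) (φ : Fin m → Fin r → (X →L[ℂ] ℂ)), ∀ i, F i = fin u (φ i) := by
  have h1 : ∀ i, FiniteDimensional ℂ (LinearMap.range (F i : X →ₗ[ℂ] X)) := hF
  have h2 : FiniteDimensional ℂ
      (⨆ i, LinearMap.range (F i : X →ₗ[ℂ] X) : Submodule ℂ X) :=
    Submodule.finiteDimensional_iSup _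
  obtain ⟨u, φ, h3⟩ := factor F (⨆ i, LinearMap.range (F i : X →ₗ[ℂ] X)) (fun i x =>
    (le_iSup (fun i => LinearMap.range (F i : X →ₗ[ℂ] X)) i) ⟨x, rfl⟩)
  exact ⟨_, u, φ, h3⟩

theorem factor_one (F : X →L[ℂ] X) (hF : FR F) :
    ∃ (u : Fin (Module.finrank ℂ (LinearMap.range (F : X →ₗ[ℂ] X))) → X)
      (φ : Fin (Module.finrank ℂ (LinearMap.range (F : X →ₗ[ℂ] X))) → (X →L[ℂ] ℂ)),
      F = fin u φ := by
  have h1 : FiniteDimensional ℂ (LinearMap.range (F : X →ₗ[ℂ] X)) := hF
  obtain ⟨u, φ, h3⟩ := factor (m := 1) (fun _ => F) (LinearMap.range (F : X →ₗ[ℂ] X))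
    (fun i x => ⟨x, rfl⟩)
  exact ⟨u, φ 0, h3 0⟩

/-- (1) the quasinilpotent locus is algebraic -/
theorem algebraic (T : X →L[ℂ] X) (F : Fin m → (X →L[ℂ] X)) (hF : ∀ i, FR (F i)) :
    ∃ S : Finset (MvPolynomial (Fin m) ℂ), ∀ z : Fin m → ℂ,
      QNil (T + ∑ i, z i • F i) ↔ ∀ p ∈ S, eval z p = 0 := by
  by_cases h : ∃ z0 : Fin m → ℂ, QNil (T + ∑ i, z0 i • F i)
  · obtain ⟨z0, hz0⟩ := h
    obtain ⟨r, u, φ, hφ⟩ := factor_family F hF
    simp only [hφ, sum_fin] at hz0 ⊢
    exact algebraic_of_qnil z0 u φ hz0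
  · push Not at h
    refine ⟨{1}, fun z => ?_⟩
    simp [h z]

/-- (2) lines -/
theorem line (T F : X →L[ℂ] X) (hF : FR F) :
    {z : ℂ | QNil (T + z • F)} = Set.univ ∨
      {z : ℂ | QNil (T + z • F)}.encard ≤
        (2 * Module.finrank ℂ (LinearMap.range (F : X →ₗ[ℂ] X)) : ℕ) := by
  by_cases h : {z : ℂ | QNil (T + z • F)} = Set.univ
  · exact Or.inl h
  · right
    by_contra hcon
    push Not at hcon
    set r := Module.finrank ℂ (LinearMap.range (F : X →ₗ[ℂ] X)) with hr
    have h1 : ((2 * r + 1 : ℕ) : ℕ∞) ≤ {z : ℂ | QNil (T + z • F)}.encard := by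
      have := Order.add_one_le_of_lt hcon
      exact_mod_cast this
    obtain ⟨t, ht, htc⟩ := Set.exists_subset_encard_eq h1
    have htf : t.Finite := by
      apply Set.finite_of_encard_eq_coe htc
    have hcard : htf.toFinset.card = 2 * r + 1 := by
      have h2 : t.encard = htf.toFinset.card := by
        rw [htf.encard_eq_coe_toFinset_card]
      rw [htc] at h2
      exact_mod_cast h2.symm
    have hne : htf.toFinset.Nonempty := by
      rw [← Finset.card_pos, hcard]
      omega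
    obtain ⟨z0, hz0⟩ := hne
    have hz0' : QNil (T + z0 • F) := ht ((Set.Finite.mem_toFinset htf).1 hz0)
    obtain ⟨u, φ, hφ⟩ := factor_one F hF
    have key : ∀ z : ℂ, T + z0 • F + (z - z0) • F = T + z • F := by
      intro z
      rw [add_assoc, ← add_smul, add_sub_cancel]
    have h3 := line_of_qnil hz0' u φ ?_ (htf.toFinset.image (fun z => z - z0)) ?_
    · rw [Finset.card_image_of_injective _ (sub_left_injective), hcard] at h3
      omega
    · have h4 : ∃ z : ℂ, ¬ QNil (T + z • F) := by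
        by_contra h5
        push Not at h5
        exact h (Set.eq_univ_of_forall h5)
      obtain ⟨z, hz⟩ := h4
      refine ⟨z - z0, ?_⟩
      rw [← hφ, key]
      exact hz
    · intro z hz
      rw [Finset.mem_image] at hz
      obtain ⟨y, hy, rfl⟩ := hz
      rw [← hφ, key]
      exact ht ((Set.Finite.mem_toFinset htf).1 hy)

/-- a nonzero eigenvalue of finite multiplicity -/
def HasEig (S : X →L[ℂ] X) : Prop :=
  ∃ l : ℂ, l ≠ 0 ∧ ∃ V : Submodule ℂ X, (∀ x, x ∈ V ↔ S x = l • x) ∧ V ≠ ⊥ ∧ FiniteDimensional ℂ V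

theorem hasEig_of_qnil {T : X →L[ℂ] X} (hT : QNil T) (u : Fin r → X) (φ : Fin r → (X →L[ℂ] ℂ))
    (h : ¬ QNil (T + fin u φ)) : HasEig (T + fin u φ) := by
  rw [qnil_iff hT] at h
  push Not at h
  obtain ⟨w, hw⟩ := h
  have hw0 : w ≠ 0 := by
    rintro rfl
    rw [mat_zero] at hw
    simp at hw
  obtain ⟨x, hx, hx2⟩ := exists_eigen u φ (isUnit_of_qnil hT w) hw
  refine ⟨w⁻¹, inv_ne_zero hw0, LinearMap.ker (((T + fin u φ) - w⁻¹ • (1 : X →L[ℂ] X) : X →L[ℂ] X) :
    X →ₗ[ℂ] X), ?_, ?_, ?_⟩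
  · intro y
    rw [LinearMap.mem_ker]
    show (T + fin u φ) y - w⁻¹ • y = 0 ↔ _
    rw [sub_eq_zero]
  · intro h0
    apply hx
    have : x ∈ LinearMap.ker (((T + fin u φ) - w⁻¹ • (1 : X →L[ℂ] X) : X →L[ℂ] X) :
        X →ₗ[ℂ] X) := by
      rw [LinearMap.mem_ker]
      show (T + fin u φ) x - w⁻¹ • x = 0
      rw [sub_eq_zero]
      conv_rhs => rw [hx2]
      rw [smul_smul, inv_mul_cancel₀ hw0, one_smul]
    rw [h0] at this
    exact (Submodule.mem_bot ℂ).1 this
  · have h1 : LinearMap.ker (((T + fin u φ) - w⁻¹ • (1 : X →L[ℂ] X) : X →L[ℂ] X) :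
        X →ₗ[ℂ] X) ≤ Submodule.map ((res T w : X →L[ℂ] X) : X →ₗ[ℂ] X)
          (Submodule.span ℂ (Set.range u)) := by
      intro y hy
      rw [LinearMap.mem_ker] at hy
      have hy2 : (T + fin u φ) y - w⁻¹ • y = 0 := hy
      rw [sub_eq_zero] at hy2
      refine ⟨w • fin u φ y, ?_, ?_⟩
      · rw [fin_apply]
        refine Submodule.smul_mem _ _ (Submodule.sum_mem _ fun j _ => Submodule.smul_mem _ _ ?_)
        exact Submodule.subset_span ⟨j, rfl⟩
      · show res T w (w • fin u φ y) = y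
        have h2 : w • fin u φ y = y - w • T y := by
          have h3 : w • (T + fin u φ) y = y := by
            rw [hy2, smul_smul, mul_inv_cancel₀ hw0, one_smul]
          rw [eq_sub_iff_add_eq, ← smul_add, add_comm (fin u φ y)]
          exact h3
        rw [h2, res_mul (isUnit_of_qnil hT w)]
    have : FiniteDimensional ℂ (Submodule.span ℂ (Set.range u)) :=
      FiniteDimensional.span_of_finite ℂ (Set.finite_range u)
    exact Submodule.finiteDimensional_of_le h1

/-- nontrivial closed hyperinvariant subspace -/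
def HasHyp (S : X →L[ℂ] X) : Prop :=
  ∃ V : Submodule ℂ X, IsClosed (V : Set X) ∧ V ≠ ⊥ ∧ V ≠ ⊤ ∧
    ∀ B : X →L[ℂ] X, B * S = S * B → ∀ x ∈ V, B x ∈ V

theorem HasEig.hyp {S : X →L[ℂ] X} (h : HasEig S) (hX : ¬ FiniteDimensional ℂ X) : HasHyp S := by
  obtain ⟨l, -, V, hV, hne, hfin⟩ := h
  refine ⟨V, Submodule.closed_of_finiteDimensional V, hne, ?_, ?_⟩
  · rintro rfl
    exact hX (Module.Finite.equiv (Submodule.topEquiv (R := ℂ) (M := X)))
  · intro B hB x hx
    rw [hV] at hx ⊢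
    have h1 : B (S x) = S (B x) := by
      have := congrArg (fun A : X →L[ℂ] X => A x) hB
      exact this
    rw [← h1, hx, map_smul]

/-- (3) outside the locus there are eigenvalues -/
theorem eig_of_family (T : X →L[ℂ] X) (F : Fin m → (X →L[ℂ] X)) (hF : ∀ i, FR (F i))
    (z0 : Fin m → ℂ) (h0 : QNil (T + ∑ i, z0 i • F i)) (z : Fin m → ℂ)
    (hz : ¬ QNil (T + ∑ i, z i • F i)) : HasEig (T + ∑ i, z i • F i) := by
  obtain ⟨r, u, φ, hφ⟩ := factor_family F hF
  have key : T + ∑ i, z i • F i =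
      (T + ∑ i, z0 i • F i) + fin u (fun j => ∑ i, (z i - z0 i) • φ i j) := by
    rw [← sum_fin]
    simp only [← hφ]
    rw [add_assoc, ← Finset.sum_add_distrib]
    congr 1
    refine Finset.sum_congr rfl fun i _ => ?_
    rw [← add_smul, add_sub_cancel]
  rw [key] at hz ⊢
  exact hasEig_of_qnil h0 u _ hz

/-- (4) if `T + ζ K` is quasinilpotent for all `ζ` then so is `K` -/
theorem qnil_of_line {T K : X →L[ℂ] X} (hK : FR K) (h : ∀ ζ : ℂ, QNil (T + ζ • K)) : QNil K := by
  obtain ⟨u, ψ, hψ⟩ := factor_one K hK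
  have hT : QNil T := by
    have := h 0
    rwa [zero_smul, add_zero] at this
  have h1 : ∀ ζ w, (lpol T u ψ w).eval ζ ≠ 0 := by
    intro ζ w
    have h2 := h ζ
    rw [hψ, smul_fin, qnil_iff hT] at h2
    rw [eval_lpol]
    exact h2 w
  have h2 : ∀ ζ w, (lpol T u ψ w).eval ζ = 1 := by
    intro ζ w
    have h3 : (lpol T u ψ w).degree ≤ 0 := by
      by_contra hcon
      push Not at hcon
      obtain ⟨y, hy⟩ := IsAlgClosed.exists_root (lpol T u ψ w) (ne_of_gt hcon)
      exact h1 y w hy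
    have h4 := Polynomial.eq_C_of_degree_le_zero h3
    have h5 : (lpol T u ψ w).eval 0 = 1 := by
      rw [eval_lpol]
      have : mat T u (fun j => (0 : ℂ) • ψ j) w = 0 := by
        funext j k
        simp [mat]
      rw [this]
      simp
    rw [h4, Polynomial.eval_C] at h5 ⊢
    exact h5
  let N : ℂ → Matrix (Fin _) (Fin _) ℂ := fun w => Matrix.of fun j k => ψ j (res T w (u k))
  have hN : Continuous N := by
    refine continuous_matrix fun j k => ?_
    exact (ψ j).continuous.comp ((differentiable_res hT).continuous.clm_apply continuous_const)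
  have h3 : ∀ η w : ℂ, w ≠ 0 → (1 - η • N w).det = 1 := by
    intro η w hw
    have h4 := h2 (η / w) w
    rw [eval_lpol] at h4
    have h5 : mat T u (fun j => (η / w) • ψ j) w = η • N w := by
      funext j k
      show w * ((η / w) • ψ j) (res T w (u k)) = η • (ψ j (res T w (u k)))
      rw [ContinuousLinearMap.smul_apply, smul_eq_mul, smul_eq_mul]
      field_simp
    rw [h5] at h4
    exact h4
  have h4 : ∀ η : ℂ, (1 - η • N 0).det = 1 := by
    intro η
    have h5 : Continuous fun w => (1 - η • N w).det := by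
      have h8 : Continuous fun w => 1 - η • N w := by fun_prop
      exact h8.matrix_det
    have h6 : Tendsto (fun w => (1 - η • N w).det) (𝓝[≠] 0) (𝓝 ((1 - η • N 0).det)) :=
      (h5.tendsto 0).mono_left nhdsWithin_le_nhds
    have h7 : Tendsto (fun w => (1 - η • N w).det) (𝓝[≠] (0 : ℂ)) (𝓝 1) := by
      refine tendsto_const_nhds.congr' ?_
      filter_upwards [self_mem_nhdsWithin] with w hw
      exact (h3 η w hw).symm
    exact tendsto_nhds_unique h6 h7
  have h0 : QNil (0 : X →L[ℂ] X) := by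
    apply qnil_of_isUnit
    intro w
    simp
  have h5 : QNil ((0 : X →L[ℂ] X) + fin u ψ) := by
    rw [qnil_iff h0]
    intro w
    have h6 : mat (0 : X →L[ℂ] X) u ψ w = w • N 0 := by
      funext j k
      show w * ψ j (res 0 w (u k)) = w • (ψ j (res T 0 (u k)))
      rw [res_zero]
      have : res (0 : X →L[ℂ] X) w = 1 := by simp [res]
      rw [this, smul_eq_mul]
    rw [h6, h4]
    exact one_ne_zero
  rw [zero_add, ← hψ] at h5
  exact h5

/-- nontrivial closed invariant subspace -/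
def HasInv (S : X →L[ℂ] X) : Prop :=
  ∃ V : Submodule ℂ X, IsClosed (V : Set X) ∧ V ≠ ⊥ ∧ V ≠ ⊤ ∧ ∀ x ∈ V, S x ∈ V

/-- (5) rank one lines -/
theorem inv_of_line {T K : X →L[ℂ] X}
    (hK : Module.finrank ℂ (LinearMap.range (K : X →ₗ[ℂ] X)) = 1)
    (h : ∀ ζ : ℂ, QNil (T + ζ • K)) : HasInv T := by
  have hFR : FR K := Module.finite_of_finrank_pos (by rw [hK]; exact one_pos)
  obtain ⟨u, φ, hφ⟩ : ∃ (u : Fin 1 → X) (φ : Fin 1 → (X →L[ℂ] ℂ)), K = fin u φ := by
    have := factor_one K hFR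
    rw [hK] at this
    exact this
  have hK0 : K ≠ 0 := by
    rintro rfl
    have : LinearMap.range ((0 : X →L[ℂ] X) : X →ₗ[ℂ] X) = ⊥ := by
      simp
    rw [this, finrank_bot] at hK
    exact zero_ne_one hK
  have hKx : ∀ x, K x = φ 0 x • u 0 := by
    intro x
    rw [hφ, fin_apply, Fin.sum_univ_one]
  have hu0 : u 0 ≠ 0 := by
    intro h0
    apply hK0
    ext x
    rw [hKx, h0, smul_zero, ContinuousLinearMap.zero_apply]
  obtain ⟨x0, hx0⟩ : ∃ x, φ 0 x ≠ 0 := by
    by_contra hcon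
    push Not at hcon
    apply hK0
    ext x
    rw [hKx, hcon, zero_smul, ContinuousLinearMap.zero_apply]
  have hT : QNil T := by
    have := h 0
    rwa [zero_smul, add_zero] at this
  have h1 : ∀ w : ℂ, w ≠ 0 → φ 0 (res T w (u 0)) = 0 := by
    intro w hw
    by_contra hne
    have h2 := h (w * φ 0 (res T w (u 0)))⁻¹
    rw [hφ, smul_fin, qnil_iff hT] at h2
    apply h2 w
    rw [Matrix.det_unique]
    show (1 : Matrix (Fin 1) (Fin 1) ℂ) 0 0 - w * ((w * φ 0 (res T w (u 0)))⁻¹ • φ 0) (res T w (u 0)) = 0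
    rw [Matrix.one_apply_eq, ContinuousLinearMap.smul_apply, smul_eq_mul]
    field_simp
    ring
  let S0 : Submodule ℂ X := Submodule.span ℂ {y | ∃ w : ℂ, w ≠ 0 ∧ y = res T w (u 0)}
  have hker : S0.topologicalClosure ≤ LinearMap.ker (φ 0 : X →ₗ[ℂ] ℂ) := by
    apply Submodule.topologicalClosure_minimal
    · rw [Submodule.span_le]
      rintro _ ⟨w, hw, rfl⟩
      exact h1 w hw
    · exact ContinuousLinearMap.isClosed_ker (φ 0)
  have hu : u 0 ∈ S0.topologicalClosure := by
    have h2 : Continuous fun w => res T w (u 0) :=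
      (differentiable_res hT).continuous.clm_apply continuous_const
    have h3 : Tendsto (fun w => res T w (u 0)) (𝓝[≠] 0) (𝓝 (res T 0 (u 0))) :=
      (h2.tendsto 0).mono_left nhdsWithin_le_nhds
    rw [res_zero] at h3
    have h4 : (1 : X →L[ℂ] X) (u 0) = u 0 := rfl
    rw [h4] at h3
    refine mem_closure_of_tendsto h3 ?_
    filter_upwards [self_mem_nhdsWithin] with w hw
    exact Submodule.subset_span ⟨w, hw, rfl⟩
  refine ⟨S0.topologicalClosure, S0.isClosed_topologicalClosure, ?_, ?_, ?_⟩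
  · intro h0
    rw [h0] at hu
    exact hu0 ((Submodule.mem_bot ℂ).1 hu)
  · intro h0
    rw [h0] at hker
    exact hx0 (hker (Submodule.mem_top : x0 ∈ ⊤))
  · have h2 : S0.topologicalClosure ≤
        Submodule.comap (T : X →ₗ[ℂ] X) S0.topologicalClosure := by
      apply Submodule.topologicalClosure_minimal
      · rw [Submodule.span_le]
        rintro _ ⟨w, hw, rfl⟩
        show T (res T w (u 0)) ∈ S0.topologicalClosure
        have h3 := mul_res (isUnit_of_qnil hT w) (u 0)
        have h4 : T (res T w (u 0)) = w⁻¹ • (res T w (u 0) - u 0) := by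
          rw [eq_inv_smul_iff₀ hw, eq_sub_iff_add_eq, add_comm]
          exact (sub_eq_iff_eq_add.1 h3).symm
        rw [h4]
        refine Submodule.smul_mem _ _ (Submodule.sub_mem _ ?_ hu)
        exact S0.le_topologicalClosure (Submodule.subset_span ⟨w, hw, rfl⟩)
      · exact S0.isClosed_topologicalClosure.preimage T.continuous
    exact fun x hx => h2 hx

end Pool.Agent.U667.QN
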